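import Mathlib

set_option autoImplicit false
open MeasureTheory Complex
open scoped Real FourierTransform SchwartzMap ContDiff

namespace Pool.Agent.P.MP_2a8753_an

/-- The character `x ↦ exp (2 π i x)`. -/
noncomputable def ee (x : ℝ) : ℂ := Complex.exp (2 * (π : ℂ) * I * (x : ℂ))

lemma ee_add (x y : ℝ) : ee (x + y) = ee x * ee y := by
  unfold ee; rw [← Complex.exp_add]; congr 1; push_cast; ring

lemma ee_zero : ee 0 = 1 := by simp [ee]

lemma norm_ee (x : ℝ) : ‖ee x‖ = 1 := by
  unfold ee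
  have : 2 * (π : ℂ) * I * (x : ℂ) = ((2 * π * x : ℝ) : ℂ) * I := by push_cast; ring
  rw [this, Complex.norm_exp_ofReal_mul_I]

lemma ee_ne_zero (x : ℝ) : ee x ≠ 0 := Complex.exp_ne_zero _

lemma ee_int (n : ℤ) : ee n = 1 := by
  unfold ee
  have : 2 * (π : ℂ) * I * ((n : ℝ) : ℂ) = (n : ℂ) * (2 * π * I) := by push_cast; ring
  rw [this, Complex.exp_int_mul_two_pi_mul_I]

lemma ee_one : ee 1 = 1 := by simpa using ee_int 1

lemma ee_add_int (x : ℝ) (n : ℤ) : ee (x + n) = ee x := by rw [ee_add, ee_int, mul_one]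

lemma ee_neg_mul (x : ℝ) : ee (-x) * ee x = 1 := by rw [← ee_add]; simp [ee_zero]

lemma ee_nat_mul (n : ℕ) (x : ℝ) : ee (n * x) = ee x ^ n := by
  unfold ee; rw [← Complex.exp_nat_mul]; congr 1; push_cast; ring

lemma contDiff_ee : ContDiff ℝ ∞ ee := by
  unfold ee
  have h : ContDiff ℝ ∞ (fun x : ℝ => (x : ℂ)) := Complex.ofRealCLM.contDiff
  exact (contDiff_const.mul h).cexp

@[fun_prop]
lemma continuous_ee : Continuous ee := contDiff_ee.continuous

lemma fourier_eq_ee (f : ℝ → ℂ) (w : ℝ) : 𝓕 f w = ∫ v : ℝ, ee (-(v * w)) * f v := by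
  rw [Real.fourier_real_eq_integral_exp_smul]
  refine integral_congr_ae (Filter.Eventually.of_forall fun v => ?_)
  simp only [smul_eq_mul, ee]
  congr 2
  push_cast; ring

/-- duality between an `L²` function and its Fourier transform -/
lemma ft_dual (h : Lp ℂ 2 (volume : Measure ℝ)) (φ : 𝓢(ℝ, ℂ)) :
    ∫ x, φ x * (𝓕 h : Lp ℂ 2 (volume : Measure ℝ)) x = ∫ x, (𝓕 (φ : ℝ → ℂ)) x * h x := by
  have h1 := Lp.fourier_toTemperedDistribution_eq h
  have h2 := congrArg (fun T : 𝓢'(ℝ, ℂ) => T φ) h1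
  simp only [TemperedDistribution.fourier_apply, Lp.toTemperedDistribution_apply,
    smul_eq_mul] at h2
  rw [← h2]
  rfl

lemma ft_shift (h : Lp ℂ 2 (volume : Measure ℝ)) (ψ : ℝ → ℂ) (h1 : HasCompactSupport ψ)
    (h2 : ContDiff ℝ ∞ ψ) (b t : ℝ) :
    ∫ s, ψ s * (ee (-(t * (s - b))) * (𝓕 h : Lp ℂ 2 (volume : Measure ℝ)) (s - b))
      = ∫ y, 𝓕 ψ y * (ee (b * y) * h (y - t)) := by
  have c1 : HasCompactSupport (fun s : ℝ => ψ (s + b) * ee (-(t * s))) := by
    apply HasCompactSupport.mul_right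
    exact h1.comp_homeomorph (Homeomorph.addRight b)
  have c2 : ContDiff ℝ ∞ (fun s : ℝ => ψ (s + b) * ee (-(t * s))) := by
    apply ContDiff.mul
    · exact h2.comp (contDiff_id.add contDiff_const)
    · exact contDiff_ee.comp (contDiff_const.mul contDiff_id).neg
  have key := ft_dual h (c1.toSchwartzMap c2)
  rw [← integral_add_right_eq_self _ b, ← integral_add_right_eq_self (fun y => 𝓕 ψ y * _) t]
  simp only [add_sub_cancel_right]
  have e1 : ∀ x : ℝ, 𝓕 (c1.toSchwartzMap c2 : ℝ → ℂ) x = 𝓕 ψ (x + t) * ee (b * (x + t)) := by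
    intro x
    rw [fourier_eq_ee, fourier_eq_ee, ← integral_mul_const,
      ← integral_add_right_eq_self (fun v => ee (-(v * (x + t))) * ψ v * ee (b * (x + t))) b]
    refine integral_congr_ae (Filter.Eventually.of_forall fun v => ?_)
    have : ee (-(v * x)) * ee (-(t * v)) = ee (-((v + b) * (x + t))) * ee (b * (x + t)) := by
      rw [← ee_add, ← ee_add]; congr 1; ring
    simp only [HasCompactSupport.toSchwartzMap_toFun]
    change ee (-(v * x)) * (ψ (v + b) * ee (-(t * v))) = _
    linear_combination ψ (v + b) * this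
  simp_rw [e1] at key
  simp_rw [← mul_assoc]
  exact key

lemma memLp_shift {f : ℝ → ℂ} (hf : MemLp f 2 volume) (u : ℝ → ℝ) (hu : Continuous u) (t : ℝ) :
    MemLp (fun x => ee (u x) * f (x - t)) 2 volume := by
  have h1 : MemLp (fun x => f (x - t)) 2 volume :=
    hf.comp_measurePreserving (measurePreserving_sub_right volume t)
  refine MemLp.of_le h1 ?_ (Filter.Eventually.of_forall fun x => ?_)
  · exact ((continuous_ee.comp hu).aestronglyMeasurable).mul h1.1
  · rw [norm_mul, norm_ee, one_mul]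

/-- The Fourier transform turns a linear relation between time-frequency shifts into
another one. -/
theorem ft_relation (h : ℝ → ℂ) (hh : MemLp h 2 volume) :
    ∃ f : ℝ → ℂ, MemLp f 2 volume ∧ (f =ᵐ[volume] 0 → h =ᵐ[volume] 0) ∧
      ∀ (N : ℕ) (a : Fin N → ℂ) (b t : Fin N → ℝ),
        (∀ᵐ x ∂(volume : Measure ℝ), ∑ j, a j * (ee (b j * x) * h (x - t j)) = 0) →
        ∀ᵐ s ∂(volume : Measure ℝ), ∑ j, a j * (ee (-(t j * (s - b j))) * f (s - b j)) = 0 := by
  set H : Lp ℂ 2 (volume : Measure ℝ) := hh.toLp h with hH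
  have hHh : (H : ℝ → ℂ) =ᵐ[volume] h := hh.coeFn_toLp
  refine ⟨(𝓕 H : Lp ℂ 2 (volume : Measure ℝ)), Lp.memLp _, ?_, ?_⟩
  · intro h0
    have : (𝓕 H : Lp ℂ 2 (volume : Measure ℝ)) = 0 := Lp.eq_zero_iff_ae_eq_zero.2 h0
    have h3 : ‖H‖ = 0 := by rw [← Lp.norm_fourier_eq, this, norm_zero]
    have h4 : H = 0 := norm_eq_zero.1 h3
    exact hHh.symm.trans (Lp.eq_zero_iff_ae_eq_zero.1 h4)
  · intro N a b t hrel
    have m1 : ∀ j, MemLp (fun s => ee (-(t j * (s - b j))) *
        (𝓕 H : Lp ℂ 2 (volume : Measure ℝ)) (s - b j)) 2 volume := fun j =>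
      memLp_shift (Lp.memLp _) _ (by fun_prop) _
    have m2 : ∀ j, MemLp (fun y => ee (b j * y) * H (y - t j)) 2 volume := fun j =>
      memLp_shift (Lp.memLp _) _ (by fun_prop) _
    apply ae_eq_zero_of_integral_contDiff_smul_eq_zero
    · apply MemLp.locallyIntegrable (p := 2) _ (by norm_num)
      exact memLp_finsetSum _ fun j _ => (m1 j).const_mul _
    · intro g hg1 hg2
      have c1 : HasCompactSupport (fun s : ℝ => (g s : ℂ)) :=
        hg2.comp_left (g := fun r : ℝ => (r : ℂ)) (by simp)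
      have c2 : ContDiff ℝ ∞ (fun s : ℝ => (g s : ℂ)) := Complex.ofRealCLM.contDiff.comp hg1
      have m3 : MemLp (fun s : ℝ => (g s : ℂ)) 2 volume :=
        c2.continuous.memLp_of_hasCompactSupport c1
      have m4 : MemLp (𝓕 (fun s : ℝ => (g s : ℂ))) 2 volume :=
        (𝓕 (c1.toSchwartzMap c2)).memLp 2 volume
      have i1 : ∀ j, Integrable (fun s => (g s : ℂ) * (ee (-(t j * (s - b j))) *
          (𝓕 H : Lp ℂ 2 (volume : Measure ℝ)) (s - b j))) volume := fun j =>
        m3.integrable_mul (m1 j)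
      have i2 : ∀ j, Integrable (fun y => 𝓕 (fun s : ℝ => (g s : ℂ)) y *
          (ee (b j * y) * H (y - t j))) volume := fun j => m4.integrable_mul (m2 j)
      calc ∫ x, g x • ∑ j, a j * (ee (-(t j * (x - b j))) *
              (𝓕 H : Lp ℂ 2 (volume : Measure ℝ)) (x - b j))
          = ∫ x, ∑ j, a j * ((g x : ℂ) * (ee (-(t j * (x - b j))) *
              (𝓕 H : Lp ℂ 2 (volume : Measure ℝ)) (x - b j))) := by
            refine integral_congr_ae (Filter.Eventually.of_forall fun x => ?_)
            simp only [Complex.real_smul, Finset.mul_sum]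
            exact Finset.sum_congr rfl fun j _ => by ring
        _ = ∑ j, a j * ∫ y, 𝓕 (fun s : ℝ => (g s : ℂ)) y * (ee (b j * y) * H (y - t j)) := by
            rw [integral_finsetSum _ fun j _ => (i1 j).const_mul _]
            refine Finset.sum_congr rfl fun j _ => ?_
            rw [integral_const_mul, ft_shift H _ c1 c2]
        _ = ∫ y, ∑ j, a j * (𝓕 (fun s : ℝ => (g s : ℂ)) y * (ee (b j * y) * H (y - t j))) := by
            rw [integral_finsetSum _ fun j _ => (i2 j).const_mul _]
            refine Finset.sum_congr rfl fun j _ => ?_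
            rw [integral_const_mul]
        _ = 0 := by
            have hall : ∀ᵐ y ∂(volume : Measure ℝ), ∀ j, H (y - t j) = h (y - t j) := by
              rw [ae_all_iff]
              intro j
              exact (measurePreserving_sub_right volume (t j)).quasiMeasurePreserving.ae hHh
            rw [← integral_zero ℝ ℂ (μ := (volume : Measure ℝ))]
            refine integral_congr_ae ?_
            filter_upwards [hrel, hall] with y hy1 hy2
            simp_rw [hy2]
            have : ∑ j, a j * (𝓕 (fun s : ℝ => (g s : ℂ)) y * (ee (b j * y) * h (y - t j)))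
                = 𝓕 (fun s : ℝ => (g s : ℂ)) y * ∑ j, a j * (ee (b j * y) * h (y - t j)) := by
              rw [Finset.mul_sum]
              exact Finset.sum_congr rfl fun j _ => by ring
            rw [this, hy1, mul_zero]

end Pool.Agent.P.MP_2a8753_an
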