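import Mathlib

set_option autoImplicit false
open MeasureTheory Filter Set Topology AddCircle
open scoped ENNReal

namespace Pool.Agent.P.MP_2a8753_an

/-- Solving the multiplicative cohomological equation over a Diophantine rotation. -/
lemma cohom (μ ρ : ℂ) (hμ : ‖μ‖ = 1) (hd : ∀ n : ℕ, n ≠ 0 → 1 ≤ n * ‖μ ^ n - 1‖)
    (hρ : ‖ρ‖ < 1) :
    ∃ W : ℂ → ℂ, ContinuousOn W (Metric.closedBall 0 1) ∧ (∀ w, W w ≠ 0) ∧
      ∀ w : ℂ, ‖w‖ ≤ 1 → W (μ * w) * (1 - ρ * w) = W w := by
  set t : ℕ → ℂ → ℂ := fun n w => (ρ * w) ^ n / (n * (μ ^ n - 1)) with ht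
  have hgeo : Summable fun n : ℕ => ‖ρ‖ ^ n := summable_geometric_of_lt_one (norm_nonneg _) hρ
  have hb : ∀ (n : ℕ) (w : ℂ), w ∈ Metric.closedBall (0 : ℂ) 1 → ‖t n w‖ ≤ ‖ρ‖ ^ n := by
    intro n w hw
    have hw' : ‖w‖ ≤ 1 := by simpa using hw
    rcases Nat.eq_zero_or_pos n with rfl | hn
    · simp [ht]
    · have h1 := hd n hn.ne'
      simp only [ht, norm_div, norm_pow, norm_mul, Complex.norm_natCast]
      refine (div_le_self (by positivity) h1).trans ?_
      gcongr
      exact mul_le_of_le_one_right (norm_nonneg _) hw'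
  have hc : ContinuousOn (fun w => ∑' n, t n w) (Metric.closedBall 0 1) := by
    refine continuousOn_tsum (fun n => ?_) hgeo hb
    simp only [ht]
    fun_prop
  refine ⟨fun w => Complex.exp (∑' n, t n w), hc.cexp, fun w => Complex.exp_ne_zero _, ?_⟩
  intro w hw
  have hw1 : w ∈ Metric.closedBall (0 : ℂ) 1 := by simpa using hw
  have hw2 : μ * w ∈ Metric.closedBall (0 : ℂ) 1 := by simpa [hμ] using hw
  have s1 : Summable fun n => t n w := Summable.of_norm_bounded hgeo fun n => hb n w hw1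
  have hz : ‖ρ * w‖ < 1 := by
    rw [norm_mul]
    exact lt_of_le_of_lt (mul_le_of_le_one_right (norm_nonneg _) hw) hρ
  have s2 := Complex.hasSum_taylorSeries_neg_log hz
  have e : ∀ n, t n (μ * w) = t n w + (ρ * w) ^ n / n := by
    intro n
    rcases Nat.eq_zero_or_pos n with rfl | hn
    · simp [ht]
    · have h1 := hd n hn.ne'
      have h2 : μ ^ n - 1 ≠ 0 := by
        intro h; rw [h] at h1; norm_num at h1
      have h3 : (n : ℂ) ≠ 0 := by exact_mod_cast hn.ne'
      simp only [ht]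
      rw [show ρ * (μ * w) = μ * (ρ * w) by ring, mul_pow μ]
      field_simp
      ring
  have e2 : ∑' n, t n (μ * w) = ∑' n, t n w + -Complex.log (1 - ρ * w) := by
    simp_rw [e]
    exact (s1.hasSum.add s2).tsum_eq
  have h0 : 1 - ρ * w ≠ 0 := by
    intro h
    have : ρ * w = 1 := by linear_combination -h
    rw [this] at hz; simp at hz
  simp only
  rw [e2, Complex.exp_add, Complex.exp_neg, Complex.exp_log h0]
  field_simp

variable {T : ℝ} [hT : Fact (0 < T)]

lemma norm_fourier (n : ℤ) (x : AddCircle T) : ‖fourier n x‖ = 1 := by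
  rw [fourier_apply, Circle.norm_coe]

lemma fourier_add_right (n : ℤ) (x y : AddCircle T) :
    fourier n (x + y) = fourier n x * fourier n y := by
  simp only [fourier_apply, zsmul_add, toCircle_add, Circle.coe_mul]

lemma fourier_neg_one_mul (x : AddCircle T) : fourier (-1) x * fourier 1 x = 1 := by
  rw [← fourier_add]; simp

lemma root_factor (A : AddCircle T) (hd : ∀ n : ℕ, n ≠ 0 → 1 ≤ n * ‖fourier 1 A ^ n - 1‖)
    (r : ℂ) (hr : ‖r‖ ≠ 1) :
    ∃ V : AddCircle T → ℂ, Continuous V ∧ (∀ x, V x ≠ 0) ∧ ∃ (γ : ℂ) (j : ℤ),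
      ((γ = 1 ∧ j = 1) ∨ (γ = -r ∧ j = 0)) ∧
      ∀ x, V (x + A) * (fourier 1 x - r) = γ * fourier j x * V x := by
  rcases lt_or_gt_of_ne hr with h | h
  · have hd' : ∀ n : ℕ, n ≠ 0 → 1 ≤ n * ‖fourier (-1) A ^ n - 1‖ := by
      intro n hn
      have e : fourier (-1) A ^ n - 1 = (starRingEnd ℂ) (fourier 1 A ^ n - 1) := by
        rw [fourier_neg]; simp
      rw [e, Complex.norm_conj]
      exact hd n hn
    obtain ⟨W, hW1, hW2, hW3⟩ := cohom (fourier (-1) A) r (norm_fourier _ _) hd' h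
    refine ⟨fun x => W (fourier (-1) x), ?_, fun x => hW2 _, 1, 1, Or.inl ⟨rfl, rfl⟩, ?_⟩
    · refine hW1.comp_continuous (map_continuous _) fun x => ?_
      rw [mem_closedBall_zero_iff, norm_fourier]
    · intro x
      have h1 := hW3 (fourier (-1) x) (norm_fourier _ _).le
      have h2 := fourier_neg_one_mul x
      simp only
      rw [fourier_add_right, mul_comm (fourier (-1) x)]
      linear_combination (fourier 1 x) * h1 + W (fourier (-1) A * fourier (-1) x) * r * h2
  · have hr0 : r ≠ 0 := by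
      intro h0; rw [h0] at h; norm_num at h
    obtain ⟨W, hW1, hW2, hW3⟩ := cohom (fourier 1 A) r⁻¹ (norm_fourier _ _) hd (by
      rw [norm_inv]; exact inv_lt_one_of_one_lt₀ h)
    refine ⟨fun x => W (fourier 1 x), ?_, fun x => hW2 _, -r, 0, Or.inr ⟨rfl, rfl⟩, ?_⟩
    · refine hW1.comp_continuous (map_continuous _) fun x => ?_
      rw [mem_closedBall_zero_iff, norm_fourier]
    · intro x
      have h1 := hW3 (fourier 1 x) (norm_fourier _ _).le
      have h2 : r * r⁻¹ = 1 := mul_inv_cancel₀ hr0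
      simp only
      rw [fourier_add_right, mul_comm (fourier 1 x), fourier_zero]
      linear_combination (-r) * h1 - W (fourier 1 A * fourier 1 x) * fourier 1 x * h2

lemma coeff_shift (K : AddCircle T → ℂ) (A : AddCircle T) (n : ℤ) :
    fourierCoeff (fun x => K (x + A)) n = fourier n A * fourierCoeff K n := by
  unfold fourierCoeff
  rw [← integral_const_mul, ← integral_add_right_eq_self
    (fun t => fourier n A * (fourier (-n) t • K t)) A]
  refine integral_congr_ae (Eventually.of_forall fun x => ?_)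
  have h : fourier n A * fourier (-n) A = 1 := by rw [← fourier_add]; simp
  simp only [smul_eq_mul]
  rw [fourier_add_right]
  linear_combination (-(fourier (-n) x * K (x + A))) * h

lemma coeff_mul (K : AddCircle T → ℂ) (j n : ℤ) :
    fourierCoeff (fun x => fourier j x * K x) n = fourierCoeff K (n - j) := by
  unfold fourierCoeff
  refine integral_congr_ae (Eventually.of_forall fun x => ?_)
  simp only [smul_eq_mul]
  rw [← mul_assoc, ← fourier_add]
  congr 3
  ring

lemma summable_coeff {K : AddCircle T → ℂ} (hK : MemLp K 2 haarAddCircle) :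
    Summable fun n => ‖fourierCoeff K n‖ ^ 2 := by
  have := (hasSum_sq_fourierCoeff (hK.toLp K)).summable
  rwa [fourierCoeff_congr_ae hK.coeFn_toLp] at this

lemma ae_zero_of_coeff {K : AddCircle T → ℂ} (hK : MemLp K 2 haarAddCircle)
    (h : ∀ n, fourierCoeff K n = 0) : K =ᵐ[haarAddCircle] 0 := by
  have h1 := hasSum_fourier_series_L2 (hK.toLp K)
  rw [fourierCoeff_congr_ae hK.coeFn_toLp] at h1
  simp only [h, zero_smul] at h1
  have h2 : hK.toLp K = 0 := h1.unique hasSum_zero
  exact hK.coeFn_toLp.symm.trans (Lp.eq_zero_iff_ae_eq_zero.1 h2)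

lemma exists_of_summable (k : ℤ → ℂ) (hk : Summable fun n => ‖k n‖ ^ 2) :
    ∃ K : AddCircle T → ℂ, MemLp K 2 haarAddCircle ∧ ∀ n, fourierCoeff K n = k n := by
  have h1 : Memℓp k 2 := by
    rw [memℓp_gen_iff (by norm_num)]
    simpa using hk
  refine ⟨(fourierBasis (T := T)).repr.symm ⟨k, h1⟩, Lp.memLp _, fun n => ?_⟩
  rw [← fourierBasis_repr]
  simp

lemma seq_zero (l : ℤ → ℂ) (hs : Summable fun n => ‖l n‖ ^ 2) (D G : ℝ) (j : ℤ)
    (h : ∀ n, D * ‖l n‖ = G * ‖l (n - j)‖) (hD : 0 < D) (hG : 0 ≤ G) (hj : j = 0 → D ≠ G) :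
    ∀ n, l n = 0 := by
  by_cases hDG : D = G
  · have hj0 : j ≠ 0 := fun h0 => hj h0 hDG
    subst hDG
    have h1 : ∀ n, ‖l n‖ = ‖l (n - j)‖ := fun n => mul_left_cancel₀ hD.ne' (h n)
    intro n
    have h2 : ∀ m : ℕ, ‖l (n - m * j)‖ = ‖l n‖ := by
      intro m
      induction m with
      | zero => simp
      | succ m ih =>
        rw [← ih, h1 (n - m * j)]
        congr 2; push_cast; ring
    have h3 : Function.Injective fun m : ℕ => n - m * j := by
      intro a b hab
      have : (a : ℤ) * j = b * j := by simpa using hab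
      exact_mod_cast mul_right_cancel₀ hj0 this
    have h4 := (hs.comp_injective h3).tendsto_atTop_zero
    simp only [Function.comp_def, h2] at h4
    have h5 := tendsto_const_nhds_iff.1 h4
    simpa using h5
  · have h1 : D ^ 2 * ∑' n, ‖l n‖ ^ 2 = G ^ 2 * ∑' n, ‖l n‖ ^ 2 := by
      conv_rhs => rw [← (Equiv.subRight j).tsum_eq]
      rw [← tsum_mul_left, ← tsum_mul_left]
      refine tsum_congr fun n => ?_
      rw [← mul_pow, ← mul_pow, h n]
      rfl
    have h2 : D ^ 2 ≠ G ^ 2 := fun h3 => hDG (by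
      have := (sq_eq_sq₀ hD.le hG).1 h3; exact this)
    have h3 : ∑' n, ‖l n‖ ^ 2 = 0 := by
      by_contra h4
      exact h2 (mul_right_cancel₀ h4 h1)
    intro n
    have h4 := hs.le_tsum n (fun _ _ => by positivity)
    rw [h3] at h4
    have h5 : ‖l n‖ ^ 2 = 0 := le_antisymm h4 (by positivity)
    simpa using h5

lemma memLp_cont_mul {K V : AddCircle T → ℂ} (hK : MemLp K 2 haarAddCircle) (hV : Continuous V) :
    MemLp (fun x => V x * K x) 2 haarAddCircle := by
  obtain ⟨C, hC⟩ := (isCompact_range hV).isBounded.exists_norm_le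
  refine MemLp.of_le_mul (c := C) hK (hV.aestronglyMeasurable.mul hK.1)
    (Eventually.of_forall fun x => ?_)
  rw [norm_mul]
  exact mul_le_mul_of_nonneg_right (hC _ (mem_range_self x)) (norm_nonneg _)

/-- The fibre equation: a second order quasi-periodic difference equation. -/
theorem fiber (A : AddCircle T) (hd : ∀ n : ℕ, n ≠ 0 → 1 ≤ n * ‖fourier 1 A ^ n - 1‖)
    (a b c d : ℂ) (hb : b ≠ 0) (hd0 : d ≠ 0) (k : ℤ → ℂ) (hk : Summable fun n => ‖k n‖ ^ 2)
    (hrec : ∀ n, (a + d * fourier n A) * k n + b * k (n - 1) + c * k (n + 1) = 0)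
    (hroot : ∀ z : ℂ, b * z ^ 2 + a * z + c = 0 → ‖z‖ ≠ 1 ∧ ‖b‖ * ‖z‖ ≠ ‖d‖) :
    ∀ n, k n = 0 := by
  obtain ⟨K, hK, hKk⟩ := exists_of_summable (T := T) k hk
  obtain ⟨r₁, r₂, hr⟩ : ∃ r₁ r₂ : ℂ, ∀ z, b * z ^ 2 + a * z + c = b * ((z - r₁) * (z - r₂)) := by
    obtain ⟨s, hs⟩ := IsAlgClosed.exists_eq_mul_self (a ^ 2 - 4 * b * c)
    refine ⟨(-a + s) / (2 * b), (-a - s) / (2 * b), fun z => ?_⟩
    field_simp
    linear_combination (-1 : ℂ) * hs
  have h1 := hroot r₁ (by rw [hr]; ring)
  have h2 := hroot r₂ (by rw [hr]; ring)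
  obtain ⟨V₁, c1, n1, γ₁, j₁, p1, e1⟩ := root_factor A hd r₁ h1.1
  obtain ⟨V₂, c2, n2, γ₂, j₂, p2, e2⟩ := root_factor A hd r₂ h2.1
  have hKA : MemLp (fun x => K (x + A)) 2 haarAddCircle :=
    hK.comp_measurePreserving (measurePreserving_add_right haarAddCircle A)
  have m1 : MemLp (fun x => a * K x) 2 haarAddCircle := hK.const_mul _
  have m2 : MemLp (fun x => d * K (x + A)) 2 haarAddCircle := hKA.const_mul _
  have m3 : MemLp (fun x => b * (fourier 1 x * K x)) 2 haarAddCircle :=
    (memLp_cont_mul hK (map_continuous _)).const_mul _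
  have m4 : MemLp (fun x => c * (fourier (-1) x * K x)) 2 haarAddCircle :=
    (memLp_cont_mul hK (map_continuous _)).const_mul _
  have i1 := m1.integrable one_le_two
  have i2 := m2.integrable one_le_two
  have i3 := m3.integrable one_le_two
  have i4 := m4.integrable one_le_two
  have hE := ae_zero_of_coeff (((m1.add m2).add m3).add m4) (by
    intro n
    rw [fourierCoeff.add ((i1.add i2).add i3) i4, fourierCoeff.add (i1.add i2) i3,
      fourierCoeff.add i1 i2]
    simp only [Pi.add_apply, fourierCoeff.const_mul, coeff_shift, coeff_mul, hKk]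
    rw [show n - -1 = n + 1 by ring]
    linear_combination hrec n)
  have hL : MemLp (fun x => (V₁ x * V₂ x) * K x) 2 haarAddCircle := memLp_cont_mul hK (c1.mul c2)
  set L : AddCircle T → ℂ := fun x => (V₁ x * V₂ x) * K x with hLdef
  have hEL : (fun x => d * L (x + A)) =ᵐ[haarAddCircle]
      fun x => (-(b * γ₁ * γ₂)) * (fourier (j₁ + j₂ + -1) x * L x) := by
    filter_upwards [hE] with x hx
    simp only [Pi.add_apply, Pi.zero_apply] at hx
    have f1 := e1 x
    have f2 := e2 x
    have f3 := hr (fourier 1 x)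
    have f4 := fourier_neg_one_mul x
    simp only [hLdef]
    rw [fourier_add, fourier_add]
    have f5 : d * K (x + A) =
        -(b * ((fourier 1 x - r₁) * (fourier 1 x - r₂))) * fourier (-1) x * K x := by
      rw [← f3]
      linear_combination hx + (b * fourier 1 x + a) * K x * f4
    calc d * (V₁ (x + A) * V₂ (x + A) * K (x + A))
        = V₁ (x + A) * V₂ (x + A) * (d * K (x + A)) := by ring
      _ = -b * (V₁ (x + A) * (fourier 1 x - r₁)) * (V₂ (x + A) * (fourier 1 x - r₂)) *
            fourier (-1) x * K x := by rw [f5]; ring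
      _ = _ := by rw [f1, f2]; ring
  have hcoef : ∀ n, ‖d‖ * ‖fourierCoeff L n‖ =
      ‖b * γ₁ * γ₂‖ * ‖fourierCoeff L (n - (j₁ + j₂ + -1))‖ := by
    intro n
    have := congrFun (fourierCoeff_congr_ae hEL) n
    rw [fourierCoeff.const_mul, fourierCoeff.const_mul, coeff_shift, coeff_mul] at this
    have h3 := congrArg norm this
    rwa [norm_mul, norm_mul, norm_fourier, one_mul, norm_mul, norm_neg] at h3
  have hL0 := seq_zero _ (summable_coeff hL) _ _ _ hcoef (norm_pos_iff.2 hd0) (norm_nonneg _) (by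
    intro hj
    rcases p1 with ⟨rfl, rfl⟩ | ⟨rfl, rfl⟩ <;> rcases p2 with ⟨rfl, rfl⟩ | ⟨rfl, rfl⟩
    · omega
    · simpa using h2.2.symm
    · simpa using h1.2.symm
    · omega)
  have hL1 := ae_zero_of_coeff hL hL0
  have hK0 : K =ᵐ[haarAddCircle] 0 := by
    filter_upwards [hL1] with x hx
    simp only [hLdef, Pi.zero_apply] at hx ⊢
    exact (mul_eq_zero.1 hx).resolve_left (mul_ne_zero (n1 x) (n2 x))
  intro n
  rw [← hKk, fourierCoeff_congr_ae hK0]
  simp [fourierCoeff]

end Pool.Agent.P.MP_2a8753_an
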