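import Mathlib

set_option autoImplicit false
open MeasureTheory Filter Set Topology
open scoped ENNReal

namespace Pool.Agent.P.MP_2a8753_an

lemma ae_of_ae_Ioc {P : ℝ → Prop} {T : ℝ} (hT : 0 < T)
    (h : ∀ a : ℝ, ∀ᵐ s ∂(volume.restrict (Ioc a (a + T))), P s) :
    ∀ᵐ s ∂(volume : Measure ℝ), P s := by
  have h1 : (⋃ n : ℤ, Ioc ((0 : ℝ) + n • T) (0 + (n + 1) • T)) = univ :=
    iUnion_Ioc_add_zsmul hT 0
  rw [← Measure.restrict_univ (μ := (volume : Measure ℝ)), ← h1, ae_restrict_iUnion_iff]
  intro n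
  have := h (0 + n • T)
  have e : (0 : ℝ) + n • T + T = 0 + (n + 1) • T := by simp [add_mul]
  rwa [e] at this

lemma ae_tsum_shift_pos (F : ℝ → ℝ≥0∞) (hF : AEMeasurable F volume)
    (hint : ∫⁻ x, F x ≠ ∞) {β : ℝ} (hβ : 0 < β) :
    ∀ᵐ s ∂(volume : Measure ℝ), ∑' n : ℤ, F (s + n * β) ≠ ∞ := by
  apply ae_of_ae_Ioc hβ
  intro a
  have hm : ∀ n : ℤ, AEMeasurable (fun s => F (s + n * β)) (volume.restrict (Ioc a (a + β))) := by
    intro n
    exact (hF.comp_quasiMeasurePreserving
      (measurePreserving_add_right volume (n * β)).quasiMeasurePreserving).restrict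
  have h1 : ∫⁻ s in Ioc a (a + β), ∑' n : ℤ, F (s + n * β) = ∫⁻ x, F x := by
    rw [lintegral_tsum hm]
    have h2 : (⋃ n : ℤ, Ioc (a + n • β) (a + (n + 1) • β)) = univ := iUnion_Ioc_add_zsmul hβ a
    rw [← setLIntegral_univ F, ← h2, lintegral_iUnion (fun _ => measurableSet_Ioc)
      (pairwise_disjoint_Ioc_add_zsmul a β)]
    refine tsum_congr fun n => ?_
    have h3 := (measurePreserving_add_right (volume : Measure ℝ) (n * β)).setLIntegral_comp_preimage_emb
      (measurableEmbedding_addRight _) F (Ioc (a + n • β) (a + (n + 1) • β))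
    rw [← h3]
    congr 2
    ext x
    simp only [mem_Ioc, mem_preimage, zsmul_eq_mul]
    push_cast
    constructor <;> rintro ⟨h4, h5⟩ <;> constructor <;> linarith
  have h4 : AEMeasurable (fun s => ∑' n : ℤ, F (s + n * β)) (volume.restrict (Ioc a (a + β))) :=
    AEMeasurable.tsum hm
  filter_upwards [ae_lt_top' h4 (by rw [h1]; exact hint)] with s hs using hs.ne

/-- For an `L²` function, a.e. arithmetic progression of values is square summable. -/
lemma ae_summable_shift {f : ℝ → ℂ} (hf : MemLp f 2 volume) {β : ℝ} (hβ : β ≠ 0) :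
    ∀ᵐ s ∂(volume : Measure ℝ), Summable fun n : ℤ => ‖f (s + n * β)‖ ^ 2 := by
  have hi : Integrable (fun x => ‖f x‖ ^ 2) volume := (memLp_two_iff_integrable_sq_norm hf.1).1 hf
  have hpos : ∀ γ : ℝ, 0 < γ →
      ∀ᵐ s ∂(volume : Measure ℝ), Summable fun n : ℤ => ‖f (s + n * γ)‖ ^ 2 := by
    intro γ hγ
    have := ae_tsum_shift_pos (fun x => ENNReal.ofReal (‖f x‖ ^ 2))
      hi.1.aemeasurable.ennreal_ofReal (by
        have := hi.2
        rw [hasFiniteIntegral_iff_ofReal (Eventually.of_forall fun x => by positivity)] at this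
        exact this.ne) hγ
    filter_upwards [this] with s hs
    have := ENNReal.summable_toReal hs
    refine this.congr fun n => ?_
    rw [ENNReal.toReal_ofReal (by positivity)]
  rcases lt_or_gt_of_ne hβ with h | h
  · filter_upwards [hpos (-β) (by linarith)] with s hs
    have := (Equiv.neg ℤ).summable_iff.2 hs
    refine this.congr fun n => ?_
    simp
  · exact hpos β h

lemma ae_tendsto_shift {f : ℝ → ℂ} (hf : MemLp f 2 volume) {β : ℝ} (hβ : β ≠ 0) :
    ∀ᵐ s ∂(volume : Measure ℝ), Tendsto (fun n : ℕ => ‖f (s + n * β)‖) atTop (𝓝 0) := by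
  filter_upwards [ae_summable_shift hf hβ] with s hs
  have h1 : Summable fun n : ℕ => ‖f (s + n * β)‖ ^ 2 := by
    have := hs.comp_injective (i := fun n : ℕ => (n : ℤ)) Nat.cast_injective
    simpa [Function.comp_def] using this
  have h2 := h1.tendsto_atTop_zero.sqrt
  simpa using h2

/-- Poincaré recurrence: forward products of a cocycle over a rotation cannot be large where
backward products are small. -/
lemma cocycle_null {T : ℝ} [hT : Fact (0 < T)] (q : AddCircle T → ℝ) (hq : Continuous q)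
    (b : AddCircle T) (N : ℕ) :
    volume {θ : AddCircle T | ∀ n ≥ N, ∏ j ∈ Finset.range n, q (θ - j • b) < 1 ∧
      1 < ∏ j ∈ Finset.range n, q (θ + (j + 1) • b)} = 0 := by
  set E := {θ : AddCircle T | ∀ n ≥ N, ∏ j ∈ Finset.range n, q (θ - j • b) < 1 ∧
      1 < ∏ j ∈ Finset.range n, q (θ + (j + 1) • b)} with hE
  have hm : MeasurableSet E := by
    rw [hE, ofPred_forall]
    refine MeasurableSet.iInter fun n => ?_
    rw [ofPred_forall]
    refine MeasurableSet.iInter fun _ => ?_
    refine IsOpen.measurableSet (IsOpen.and ?_ ?_)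
    · exact isOpen_lt (by fun_prop) continuous_const
    · exact isOpen_lt continuous_const (by fun_prop)
  by_contra h0
  have hc : Conservative (fun θ : AddCircle T => θ + b) volume :=
    (measurePreserving_add_right volume b).conservative
  obtain ⟨m, hmN, hm0⟩ := hc.exists_gt_measure_inter_ne_zero hm.nullMeasurableSet h0 N
  obtain ⟨θ, hθ1, hθ2⟩ := nonempty_of_measure_ne_zero hm0
  rw [mem_preimage, add_right_iterate_apply] at hθ2
  have h1 := (hθ1 m hmN.le).2
  have h2 := (hθ2 m hmN.le).1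
  have h3 : ∏ j ∈ Finset.range m, q (θ + m • b - j • b)
      = ∏ j ∈ Finset.range m, q (θ + (j + 1) • b) := by
    rw [← Finset.prod_range_reflect]
    refine Finset.prod_congr rfl fun j hj => ?_
    have hj' : j < m := Finset.mem_range.1 hj
    congr 1
    have : m = (m - 1 - j) + (j + 1) := by omega
    conv_lhs => rw [this, add_nsmul]
    have e : m - 1 - j + (j + 1) - 1 - j = m - 1 - j := by omega
    rw [e]; abel
  linarith

/-- The two-term relation `‖f (s - β)‖ = p s ‖f s‖` with a periodic continuous `p` has no nonzero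
`L²` solution. -/
theorem recurrence {f : ℝ → ℂ} (hf : MemLp f 2 volume) {T β : ℝ} (hT : 0 < T) (hβ : β ≠ 0)
    (p : ℝ → ℝ) (hp : Continuous p) (hper : Function.Periodic p T)
    (h : ∀ᵐ s ∂(volume : Measure ℝ), ‖f (s - β)‖ = p s * ‖f s‖) : f =ᵐ[volume] 0 := by
  have : Fact (0 < T) := ⟨hT⟩
  set q : AddCircle T → ℝ := hper.lift with hq
  have hqc : Continuous q := by
    rw [hq]
    exact continuous_coinduced_dom.2 hp
  have hqp : ∀ x : ℝ, q (x : AddCircle T) = p x := fun x => hper.lift_coe x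
  have hnull : ∀ᵐ θ ∂(volume : Measure (AddCircle T)), ∀ N : ℕ,
      ¬ ∀ n ≥ N, ∏ j ∈ Finset.range n, q (θ - j • (β : AddCircle T)) < 1 ∧
      1 < ∏ j ∈ Finset.range n, q (θ + (j + 1) • (β : AddCircle T)) := by
    rw [ae_all_iff]
    intro N
    rw [ae_iff]
    simpa using cocycle_null q hqc (β : AddCircle T) N
  have hnull' : ∀ᵐ s ∂(volume : Measure ℝ), ∀ N : ℕ,
      ¬ ∀ n ≥ N, ∏ j ∈ Finset.range n, p (s - j * β) < 1 ∧
      1 < ∏ j ∈ Finset.range n, p (s + (j + 1) * β) := by
    apply ae_of_ae_Ioc hT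
    intro a
    filter_upwards [(AddCircle.measurePreserving_mk T a).quasiMeasurePreserving.ae hnull]
      with s hs N
    have e1 : ∀ j : ℕ, q ((s : AddCircle T) - j • (β : AddCircle T)) = p (s - j * β) := by
      intro j
      rw [← hqp, ← nsmul_eq_mul]; rfl
    have e2 : ∀ j : ℕ, q ((s : AddCircle T) + (j + 1) • (β : AddCircle T))
        = p (s + (j + 1) * β) := by
      intro j
      rw [← hqp, ← Nat.cast_succ, ← nsmul_eq_mul]; rfl
    have := hs N
    simpa only [e1, e2] using this
  have hall : ∀ᵐ s ∂(volume : Measure ℝ), ∀ n : ℤ,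
      ‖f (s + n * β - β)‖ = p (s + n * β) * ‖f (s + n * β)‖ := by
    rw [ae_all_iff]
    intro n
    exact (measurePreserving_add_right volume (n * β)).quasiMeasurePreserving.ae h
  filter_upwards [hnull', hall, ae_tendsto_shift hf hβ, ae_tendsto_shift hf (neg_ne_zero.2 hβ)]
    with s h1 h2 h3 h4
  by_contra h0
  have hpos : 0 < ‖f s‖ := norm_pos_iff.2 h0
  have hb : ∀ n : ℕ, ‖f (s + n * (-β))‖ = (∏ j ∈ Finset.range n, p (s - j * β)) * ‖f s‖ := by
    intro n
    induction n with
    | zero => simp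
    | succ n ih =>
      have := h2 (-(n : ℤ))
      rw [Finset.prod_range_succ, mul_right_comm, ← ih]
      have e1 : s + ((n + 1 : ℕ) : ℝ) * (-β) = s + ((-(n : ℤ) : ℤ) : ℝ) * β - β := by
        push_cast; ring
      have e2 : s + ((-(n : ℤ) : ℤ) : ℝ) * β = s - n * β := by push_cast; ring
      have e3 : s + (n : ℝ) * (-β) = s - n * β := by ring
      rw [e1, this, e2, e3, mul_comm]
  have hfw : ∀ n : ℕ,
      ‖f s‖ = (∏ j ∈ Finset.range n, p (s + (j + 1) * β)) * ‖f (s + n * β)‖ := by
    intro n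
    induction n with
    | zero => simp
    | succ n ih =>
      have := h2 ((n : ℤ) + 1)
      have e1 : s + (((n : ℤ) + 1 : ℤ) : ℝ) * β - β = s + n * β := by push_cast; ring
      have e2 : s + (((n : ℤ) + 1 : ℤ) : ℝ) * β = s + (n + 1) * β := by push_cast; ring
      rw [e1, e2] at this
      rw [Finset.prod_range_succ, ih, this]
      push_cast
      ring
  have h5 := (h3.eventually (gt_mem_nhds hpos)).and (h4.eventually (gt_mem_nhds hpos))
  obtain ⟨N, hN⟩ := eventually_atTop.1 h5
  refine h1 N fun n hn => ⟨?_, ?_⟩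
  · have := (hN n hn).2
    rw [hb n] at this
    by_contra hc
    push Not at hc
    nlinarith
  · have h6 := (hN n hn).1
    have h7 := hfw n
    by_contra hc
    push Not at hc
    have : 0 ≤ ‖f (s + n * β)‖ := norm_nonneg _
    nlinarith

end Pool.Agent.P.MP_2a8753_an
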