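import Mathlib
import Pool.Agent.P.MP_2a8753_an.FT
import Pool.Agent.P.MP_2a8753_an.Recur
import Pool.Agent.P.MP_2a8753_an.Fiber

set_option autoImplicit false
open MeasureTheory Filter Set Topology AddCircle Complex
open scoped Real

namespace Pool.Agent.P.MP_2a8753_an

lemma dioph_sqrt_two (n : ℕ) (hn : n ≠ 0) : 1 ≤ n * ‖ee (n * √2) - 1‖ := by
  set m : ℤ := round ((n : ℝ) * √2) with hm
  set δ : ℝ := n * √2 - m with hδ
  have h1 : |δ| ≤ 1 / 2 := abs_sub_round _
  have h2 : ee (n * √2) = Complex.exp (I * ((2 * π * δ : ℝ) : ℂ)) := by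
    have : (n : ℝ) * √2 = δ + m := by rw [hδ]; ring
    rw [this, ee_add_int]; unfold ee; congr 1; push_cast; ring
  have hpi := Real.pi_pos
  have h3 : 4 * |δ| ≤ ‖ee (n * √2) - 1‖ := by
    rw [h2, Complex.norm_exp_I_mul_ofReal_sub_one, Real.norm_eq_abs, abs_mul, abs_two]
    have h4 : |2 * π * δ / 2| = π * |δ| := by
      rw [show 2 * π * δ / 2 = π * δ by ring, abs_mul, abs_of_pos hpi]
    have h5 := Real.mul_abs_le_abs_sin (x := 2 * π * δ / 2) (by rw [h4]; nlinarith)
    rw [h4] at h5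
    have h6 : 2 / π * (π * |δ|) = 2 * |δ| := by field_simp
    linarith
  have hs : (√2 : ℝ) * √2 = 2 := Real.mul_self_sqrt (by norm_num)
  have hs1 : (√2 : ℝ) < 3 / 2 := by
    rw [Real.sqrt_lt' (by norm_num)]; norm_num
  have hs0 : (0 : ℝ) < √2 := by positivity
  have hn1 : (1 : ℝ) ≤ n := by exact_mod_cast Nat.one_le_iff_ne_zero.2 hn
  have h7 : δ * (n * √2 + m) = ((2 * n ^ 2 - m ^ 2 : ℤ) : ℝ) := by
    rw [hδ]; push_cast
    linear_combination (n : ℝ) ^ 2 * hs
  have h8 : (2 * n ^ 2 - m ^ 2 : ℤ) ≠ 0 := by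
    intro h0
    rw [h0] at h7
    have hirr : Irrational ((n : ℝ) * √2) := irrational_sqrt_two.natCast_mul hn
    rcases mul_eq_zero.1 (h7.trans Int.cast_zero) with h | h
    · exact hirr.ne_int m (by rw [hδ] at h; linarith)
    · exact hirr.ne_int (-m) (by push_cast; linarith)
  have h9 : (1 : ℝ) ≤ |δ| * |n * √2 + m| := by
    rw [← abs_mul, h7, ← Int.cast_abs]
    exact_mod_cast Int.one_le_abs h8
  have h10 : |(n : ℝ) * √2 + m| ≤ 4 * n := by
    have : (n : ℝ) * √2 + m = 2 * (n * √2) - δ := by rw [hδ]; ring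
    rw [this, abs_le]
    have := abs_le.1 h1
    constructor <;> nlinarith
  have h11 : 0 ≤ |δ| := abs_nonneg _
  nlinarith

lemma fourier_coe_ee (n : ℤ) (x : ℝ) : fourier n (x : AddCircle (1 : ℝ)) = ee (n * x) := by
  rw [fourier_coe_apply]; unfold ee; congr 1; push_cast; ring

lemma countable_ee_eq (w : ℂ) : {s : ℝ | ee s = w}.Countable := by
  rcases eq_empty_or_nonempty {s : ℝ | ee s = w} with h | ⟨s₀, hs₀⟩
  · rw [h]; exact countable_empty
  · refine (countable_range fun n : ℤ => s₀ + n).mono fun s hs => ?_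
    have h1 : ee s = ee s₀ := hs.trans hs₀.symm
    obtain ⟨n, hn⟩ := Complex.exp_eq_exp_iff_exists_int.1 h1
    refine ⟨n, ?_⟩
    have h2 : (2 * (π : ℂ) * I) * (s : ℂ) = (2 * π * I) * ((s₀ + n : ℝ) : ℂ) := by
      push_cast; linear_combination hn
    have h3 := mul_left_cancel₀ Complex.two_pi_I_ne_zero h2
    exact_mod_cast h3.symm

lemma finite_circle_inter (b a : ℂ) (hb : b ≠ 0) (ha : a ≠ 0) (ρ R : ℝ) :
    {z : ℂ | ‖z‖ = ρ ∧ ‖b * z + a‖ = R}.Finite := by
  set β : ℂ := b * (starRingEnd ℂ) a with hβ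
  have hβ0 : β ≠ 0 := mul_ne_zero hb (by simpa using ha)
  set κ : ℝ := (R ^ 2 - ‖b‖ ^ 2 * ρ ^ 2 - ‖a‖ ^ 2) / 2 with hκ
  set t : ℝ := √(‖β‖ ^ 2 * ρ ^ 2 - κ ^ 2) with ht
  have hfin : ({⟨κ, t⟩, ⟨κ, -t⟩} : Set ℂ).Finite := by simp
  refine Finite.of_finite_image (f := fun z => β * z) (hfin.subset ?_)
    (fun x _ y _ h => mul_left_cancel₀ hβ0 h)
  rintro _ ⟨z, ⟨hz1, hz2⟩, rfl⟩
  have h1 : (β * z).re = κ := by
    have e1 : Complex.normSq (b * z + a) = R ^ 2 := by rw [Complex.normSq_eq_norm_sq, hz2]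
    rw [Complex.normSq_add, Complex.normSq_mul, Complex.normSq_eq_norm_sq,
      Complex.normSq_eq_norm_sq, Complex.normSq_eq_norm_sq, hz1] at e1
    have e2 : β * z = b * z * (starRingEnd ℂ) a := by rw [hβ]; ring
    rw [e2, hκ]; linarith
  have h2 : (β * z).im ^ 2 = ‖β‖ ^ 2 * ρ ^ 2 - κ ^ 2 := by
    have e1 : Complex.normSq (β * z) = ‖β‖ ^ 2 * ρ ^ 2 := by
      rw [Complex.normSq_eq_norm_sq, norm_mul, hz1]; ring
    rw [Complex.normSq_apply, h1] at e1
    linarith
  have h3 : t = |(β * z).im| := by rw [ht, ← h2, Real.sqrt_sq_eq_abs]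
  simp only [mem_insert_iff, mem_singleton_iff]
  rcases abs_cases (β * z).im with h | h
  · left; exact Complex.ext h1 (by simp only; linarith)
  · right; exact Complex.ext h1 (by simp only; linarith)

lemma ae_no_root (a b c : ℂ) (ha : a ≠ 0) (hb : b ≠ 0) (hc : c ≠ 0) (ρ : ℝ) (hρ : ρ ≠ 0) :
    ∀ᵐ s ∂(volume : Measure ℝ), ∀ z : ℂ, b * z ^ 2 + a * z + -c * ee (-s) = 0 → ‖z‖ ≠ ρ := by
  have h1 := finite_circle_inter b a hb ha ρ (‖c‖ / ρ)
  have h2 : (⋃ z ∈ {z : ℂ | ‖z‖ = ρ ∧ ‖b * z + a‖ = ‖c‖ / ρ},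
      {s : ℝ | ee s = c / (b * z ^ 2 + a * z)}).Countable :=
    h1.countable.biUnion fun z _ => countable_ee_eq _
  have h3 := h2.measure_zero (volume : Measure ℝ)
  rw [ae_iff]
  refine measure_mono_null (fun s hs => ?_) h3
  simp only [mem_ofPred_eq, not_forall, not_not] at hs
  obtain ⟨z, hz1, hz2⟩ := hs
  have e1 : b * z ^ 2 + a * z = c * ee (-s) := by linear_combination hz1
  simp only [mem_iUnion, mem_ofPred_eq]
  refine ⟨z, ⟨hz2, ?_⟩, ?_⟩
  · have e2 : z * (b * z + a) = c * ee (-s) := by rw [← e1]; ring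
    have e3 := congrArg norm e2
    rw [norm_mul, norm_mul, norm_ee, hz2] at e3
    field_simp
    linarith
  · rw [e1, eq_div_iff (mul_ne_zero hc (ee_ne_zero _))]
    linear_combination c * ee_neg_mul s

lemma chirp_memLp {g : ℝ → ℂ} (hg : MemLp g 2 volume) (σ : ℝ) :
    MemLp (fun x => ee (σ * x ^ 2) * g x) 2 volume := by
  simpa using memLp_shift hg (fun x => σ * x ^ 2) (by fun_prop) 0

lemma chirp_zero {g : ℝ → ℂ} (σ : ℝ) (h : (fun x => ee (σ * x ^ 2) * g x) =ᵐ[volume] 0) :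
    g =ᵐ[volume] 0 := by
  filter_upwards [h] with x hx
  exact (mul_eq_zero.1 hx).resolve_left (ee_ne_zero _)

lemma sqrt_two_sq : (√2 : ℝ) * √2 = 2 := Real.mul_self_sqrt (by norm_num)

/-- two-term relations with a trigonometric binomial coefficient -/
lemma two_term {f : ℝ → ℂ} (hf : MemLp f 2 volume) (a b c : ℂ) (hc : c ≠ 0) (γ β : ℝ)
    (hγ : γ ≠ 0) (hβ : β ≠ 0) (u : ℝ → ℝ)
    (h : ∀ᵐ s ∂(volume : Measure ℝ), (a + b * ee (γ * s)) * f s + c * (ee (u s) * f (s - β)) = 0) :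
    f =ᵐ[volume] 0 := by
  refine recurrence hf (T := |γ|⁻¹) (by positivity) hβ (fun s => ‖a + b * ee (γ * s)‖ / ‖c‖)
    (by fun_prop) ?_ ?_
  · intro s
    have : ee (γ * (s + |γ|⁻¹)) = ee (γ * s) := by
      rcases abs_cases γ with h1 | h1
      · rw [h1.1, mul_add, mul_inv_cancel₀ hγ, ee_add, ee_one, mul_one]
      · rw [h1.1, mul_add, inv_neg, mul_neg, mul_inv_cancel₀ hγ]
        simpa using ee_add_int (γ * s) (-1)
    simp only [this]
  · filter_upwards [h] with s hs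
    have e1 : c * (ee (u s) * f (s - β)) = -((a + b * ee (γ * s)) * f s) := by
      linear_combination hs
    have e2 := congrArg norm e1
    rw [norm_neg, norm_mul, norm_mul, norm_mul, norm_ee, one_mul] at e2
    have : ‖c‖ ≠ 0 := norm_ne_zero_iff.2 hc
    rw [div_mul_eq_mul_div, eq_div_iff this]
    linarith

theorem main (g : ℝ → ℂ) (hg : MemLp g 2 volume) (hg0 : ¬ g =ᵐ[volume] 0) (c0 c1 c2 c3 : ℂ)
    (h : ∀ᵐ x ∂(volume : Measure ℝ),
      c0 * g x + c1 * g (x - 1) + c2 * (ee x * g x) + c3 * (ee (√2 * x) * g (x - √2)) = 0) :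
    c0 = 0 ∧ c1 = 0 ∧ c2 = 0 ∧ c3 = 0 := by
  have hs0 : (√2 : ℝ) ≠ 0 := by positivity
  have hs := sqrt_two_sq
  by_cases h1 : c1 = 0
  · by_cases h3 : c3 = 0
    · subst h1 h3
      by_contra hne
      apply hg0
      by_cases h2 : c2 = 0
      · subst h2
        have h0 : c0 ≠ 0 := fun h0 => hne ⟨h0, rfl, rfl, rfl⟩
        filter_upwards [h] with x hx
        simpa [h0] using hx
      · have hn := (countable_ee_eq (-c0 / c2)).measure_zero (volume : Measure ℝ)
        have hn' : ∀ᵐ x ∂(volume : Measure ℝ), ¬ ee x = -c0 / c2 := by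
          rw [ae_iff]; simpa using hn
        filter_upwards [h, hn'] with x hx hx'
        have e : (c0 + c2 * ee x) * g x = 0 := by linear_combination hx
        refine (mul_eq_zero.1 e).resolve_left fun h4 => hx' ?_
        field_simp
        linear_combination h4
    · exfalso
      apply hg0
      refine two_term hg c0 c2 c3 h3 1 √2 one_ne_zero hs0 (fun x => √2 * x) ?_
      filter_upwards [h] with x hx
      rw [one_mul]
      linear_combination hx - g (x - 1) * h1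
  exfalso
  apply hg0
  by_cases h3 : c3 = 0
  · refine two_term hg c0 c2 c1 h1 1 1 one_ne_zero one_ne_zero (fun _ => 0) ?_
    filter_upwards [h] with x hx
    rw [one_mul, ee_zero]
    linear_combination hx - (ee (√2 * x) * g (x - √2)) * h3
  by_cases h0 : c0 = 0
  · apply chirp_zero (1 / 2)
    obtain ⟨f, hf, hf0, hrel⟩ := ft_relation _ (chirp_memLp hg (1 / 2))
    apply hf0
    have hβ : 2 * √2 - 1 ≠ 0 := by
      intro h4
      have : (√2 : ℝ) = 1 / 2 := by linarith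
      rw [this] at hs; norm_num at hs
    have h5 := hrel 3 ![c2, -c1, c3] ![0, 0, 2 * √2 - 1] ![0, 1, √2] (by
      filter_upwards [h] with x hx
      simp only [Fin.sum_univ_three, Matrix.cons_val_zero, Matrix.cons_val_one,
        Matrix.cons_val, zero_mul, sub_zero, ee_zero, one_mul]
      have e1 : ee (1 / 2 * (x - 1) ^ 2) = -(ee (1 / 2 * x ^ 2) * ee (-x)) := by
        have : 1 / 2 * (x - 1) ^ 2 = 1 / 2 * x ^ 2 + -x + 1 / 2 := by ring
        rw [this, ee_add, ee_add]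
        have : ee (1 / 2) = -1 := by
          unfold ee; rw [← Complex.exp_pi_mul_I]; congr 1; push_cast; ring
        rw [this]; ring
      have e2 : ee ((2 * √2 - 1) * x) * ee (1 / 2 * (x - √2) ^ 2)
          = ee (1 / 2 * x ^ 2) * ee (-x) * ee (√2 * x) := by
        rw [← ee_add, ← ee_add, ← ee_add, ← ee_add_int (1 / 2 * x ^ 2 + -x + √2 * x) 1]
        congr 1
        push_cast
        linear_combination (1 / 2 : ℝ) * hs
      have e3 := ee_neg_mul x
      rw [e1]
      linear_combination (ee (1 / 2 * x ^ 2) * ee (-x)) * hx + c3 * g (x - √2) * e2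
        - (ee (1 / 2 * x ^ 2) * ee (-x) * g x) * h0 - c2 * ee (1 / 2 * x ^ 2) * g x * e3)
    refine two_term hf c2 (-c1) c3 h3 (-1) (2 * √2 - 1) (by norm_num) hβ
      (fun s => -(√2 * (s - (2 * √2 - 1)))) ?_
    filter_upwards [h5] with s hs5
    simp only [Fin.sum_univ_three, Matrix.cons_val_zero, Matrix.cons_val_one,
      Matrix.cons_val, zero_mul, sub_zero, neg_zero, ee_zero, one_mul] at hs5
    rw [neg_one_mul]
    linear_combination hs5
  apply chirp_zero (-1 / 2)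
  obtain ⟨f, hf, hf0, hrel⟩ := ft_relation _ (chirp_memLp hg (-1 / 2))
  apply hf0
  have h5 := hrel 4 ![c0, -c1, c2, c3] ![0, -1, 1, 0] ![0, 1, 0, √2] (by
    filter_upwards [h] with x hx
    simp only [Fin.sum_univ_four, Matrix.cons_val_zero, Matrix.cons_val_one,
      Matrix.cons_val, zero_mul, sub_zero, ee_zero, one_mul]
    have e1 : ee (-1 * x) * ee (-1 / 2 * (x - 1) ^ 2) = -ee (-1 / 2 * x ^ 2) := by
      have : -1 * x + -1 / 2 * (x - 1) ^ 2 = -1 / 2 * x ^ 2 + 1 / 2 + ((-1 : ℤ) : ℝ) := by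
        push_cast; ring
      rw [← ee_add, this, ee_add_int, ee_add]
      have : ee (1 / 2) = -1 := by
        unfold ee; rw [← Complex.exp_pi_mul_I]; congr 1; push_cast; ring
      rw [this]; ring
    have e2 : ee (-1 / 2 * (x - √2) ^ 2) = ee (-1 / 2 * x ^ 2) * ee (√2 * x) := by
      rw [← ee_add, ← ee_add_int (-1 / 2 * x ^ 2 + √2 * x) (-1)]
      congr 1
      push_cast
      linear_combination (-1 / 2 : ℝ) * hs
    rw [e2]
    linear_combination ee (-1 / 2 * x ^ 2) * hx - c1 * g (x - 1) * e1)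
  have h6 : ∀ᵐ s ∂(volume : Measure ℝ), (c0 + c3 * ee (-√2 * s)) * f s + c2 * f (s - 1)
      + -c1 * ee (-s) * f (s + 1) = 0 := by
    filter_upwards [h5] with s hs5
    simp only [Fin.sum_univ_four, Matrix.cons_val_zero, Matrix.cons_val_one,
      Matrix.cons_val, zero_mul, sub_zero, neg_zero, ee_zero, one_mul, sub_neg_eq_add] at hs5
    have e1 : ee (-(s + 1)) = ee (-s) := by
      rw [← ee_add_int (-s) (-1)]; congr 1; push_cast; ring
    rw [e1] at hs5
    rw [neg_mul]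
    linear_combination hs5
  by_cases h2 : c2 = 0
  · refine two_term hf c0 c3 (-c1) (neg_ne_zero.2 h1) (-√2) (-1) (neg_ne_zero.2 hs0)
      (by norm_num) (fun s => -s) ?_
    filter_upwards [h6] with s hs6
    rw [sub_neg_eq_add]
    linear_combination hs6 - f (s - 1) * h2
  have h7 : ∀ᵐ s ∂(volume : Measure ℝ), ∀ n : ℤ,
      (c0 + c3 * ee (-√2 * (s + n))) * f (s + n) + c2 * f (s + n - 1)
      + -c1 * ee (-(s + n)) * f (s + n + 1) = 0 := by
    rw [ae_all_iff]
    intro n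
    exact (measurePreserving_add_right volume (n : ℝ)).quasiMeasurePreserving.ae h6
  have hc2 : ‖c2‖ ≠ 0 := norm_ne_zero_iff.2 h2
  have hc3 : ‖c3‖ ≠ 0 := norm_ne_zero_iff.2 h3
  filter_upwards [h7, ae_summable_shift hf one_ne_zero, ae_no_root c0 c2 c1 h0 h2 h1 1 one_ne_zero,
    ae_no_root c0 c2 c1 h0 h2 h1 (‖c3‖ / ‖c2‖) (div_ne_zero hc3 hc2)] with s s1 s2 s3 s4
  have : Fact ((0 : ℝ) < 1) := ⟨one_pos⟩
  have key := fiber (T := 1) ((-√2 : ℝ) : AddCircle (1 : ℝ)) (by
      intro n hn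
      have := dioph_sqrt_two n hn
      rw [fourier_coe_ee, ← ee_nat_mul]
      have e : ee (n * (((1 : ℤ) : ℝ) * -√2)) - 1 = -ee (-(n * √2)) * (ee (n * √2) - 1) := by
        have e1 : (n : ℝ) * (((1 : ℤ) : ℝ) * -√2) = -(n * √2) := by push_cast; ring
        rw [e1]
        linear_combination ee_neg_mul (n * √2)
      rw [e, norm_mul, norm_neg, norm_ee, one_mul]
      exact this)
    c0 c2 (-c1 * ee (-s)) (c3 * ee (-√2 * s)) h2 (mul_ne_zero h3 (ee_ne_zero _))
    (fun n => f (s + n)) (by simpa using s2) (by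
      intro n
      have := s1 n
      rw [fourier_coe_ee]
      have e1 : ee (-√2 * (s + n)) = ee (-√2 * s) * ee (n * -√2) := by
        rw [← ee_add]; congr 1; ring
      have e2 : ee (-(s + n)) = ee (-s) := by
        rw [← ee_add_int (-s) (-n)]; congr 1; push_cast; ring
      rw [e1, e2] at this
      push_cast
      rw [← add_sub_assoc, ← add_assoc]
      linear_combination this) (by
      intro z hz
      refine ⟨s3 z hz, fun h8 => s4 z hz ?_⟩
      rw [norm_mul, norm_ee, mul_one] at h8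
      field_simp
      linarith)
  simpa using key 0

end Pool.Agent.P.MP_2a8753_an
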